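import Pool.Agent.Helper81.PW.Defs

/-! Block PW-F: the dimensions of the representations with few boxes have density zero. The tuple `x` is determined by
its first `K` and its last `K` entries. -/

set_option autoImplicit false

namespace PW

private abbrev Cd80 (K : ℕ) := (Fin K → Fin (2 * K + 1)) × (Fin K → Fin (2 * K + 1))

private def dec80 (K m : ℕ) (c : Cd80 K) (i : Fin m) : ℤ :=
  if h : (i : ℕ) < K then ((c.1 ⟨i, h⟩ : ℕ) : ℤ) - K
  else if h : m - 1 - (i : ℕ) < K then ((c.2 ⟨m - 1 - i, h⟩ : ℕ) : ℤ) - K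
  else 0

private lemma dec_surj80 (K m : ℕ) (x : Fin m → ℤ) (h1 : ∑ i, |x i| < K) (h2 : ∀ i j, i < j → x j ≤ x i) :
    ∃ c : Cd80 K, dec80 K m c = x := by
  classical
  have hb : ∀ i, |x i| < K := fun i =>
    lt_of_le_of_lt (Finset.single_le_sum (f := fun i => |x i|) (fun _ _ => abs_nonneg _) (Finset.mem_univ i)) h1
  have hc : ∀ i, (x i + K).toNat < 2 * K + 1 := by
    intro i
    have h := abs_lt.1 (hb i)
    omega
  refine ⟨⟨fun k => if h : (k : ℕ) < m then ⟨(x ⟨k, h⟩ + K).toNat, hc _⟩ else 0,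
    fun k => if h : m - 1 - (k : ℕ) < m then ⟨(x ⟨m - 1 - k, h⟩ + K).toNat, hc _⟩ else 0⟩, ?_⟩
  funext i
  have hi := i.2
  have hx := abs_lt.1 (hb i)
  unfold dec80
  by_cases h3 : (i : ℕ) < K
  · rw [dif_pos h3]
    simp only [hi, dif_pos]
    show ((x i + K).toNat : ℤ) - K = x i
    omega
  · rw [dif_neg h3]
    by_cases h4 : m - 1 - (i : ℕ) < K
    · rw [dif_pos h4]
      have h5 : m - 1 - (m - 1 - (i : ℕ)) = i := by omega
      have h6 : m - 1 - (m - 1 - (i : ℕ)) < m := by omega
      simp only [h6, dif_pos]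
      have h7 : (⟨m - 1 - (m - 1 - (i : ℕ)), h6⟩ : Fin m) = i := Fin.ext h5
      rw [h7]
      show ((x i + K).toNat : ℤ) - K = x i
      omega
    · rw [dif_neg h4]
      by_contra hne
      rcases lt_or_gt_of_ne hne with h5 | h5
      · -- positive: all the first entries are positive
        have h6 : ∀ j ∈ Finset.Iic i, (1 : ℤ) ≤ |x j| := by
          intro j hj
          rw [Finset.mem_Iic] at hj
          have : x i ≤ x j := by
            rcases eq_or_lt_of_le hj with h | h
            · rw [h]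
            · exact h2 j i h
          exact le_trans (by omega) (le_abs_self _)
        have h7 : ((Finset.Iic i).card : ℤ) ≤ ∑ j ∈ Finset.Iic i, |x j| := by
          have := Finset.card_nsmul_le_sum (Finset.Iic i) (fun j => |x j|) 1 h6
          simpa using this
        have h8 : ∑ j ∈ Finset.Iic i, |x j| ≤ ∑ j, |x j| :=
          Finset.sum_le_sum_of_subset_of_nonneg (Finset.subset_univ _) fun _ _ _ => abs_nonneg _
        rw [Fin.card_Iic] at h7
        push_cast at h7
        omega
      · have h6 : ∀ j ∈ Finset.Ici i, (1 : ℤ) ≤ |x j| := by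
          intro j hj
          rw [Finset.mem_Ici] at hj
          have : x j ≤ x i := by
            rcases eq_or_lt_of_le hj with h | h
            · rw [h]
            · exact h2 i j h
          exact le_trans (by omega) (neg_le_abs _)
        have h7 : ((Finset.Ici i).card : ℤ) ≤ ∑ j ∈ Finset.Ici i, |x j| := by
          have := Finset.card_nsmul_le_sum (Finset.Ici i) (fun j => |x j|) 1 h6
          simpa using this
        have h8 : ∑ j ∈ Finset.Ici i, |x j| ≤ ∑ j, |x j| :=
          Finset.sum_le_sum_of_subset_of_nonneg (Finset.subset_univ _) fun _ _ _ => abs_nonneg _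
        rw [Fin.card_Ici] at h7
        omega

private lemma zero_of_code80 {S : Set ℕ} {T : Type} [Fintype T] (F : ℕ → T → ℕ)
    (h : ∀ n ∈ S, ∃ m c, m ^ 2 ≤ 4 * n ∧ n = F m c) : Zero S := by
  classical
  intro K
  set N := Fintype.card T with hN
  refine ⟨(3 * K * N + 1) ^ 2, fun X hX => ?_⟩
  set s := Nat.sqrt X with hs
  have hs1 : s * s ≤ X := Nat.sqrt_le X
  have hs2 : X < (s + 1) * (s + 1) := Nat.sqrt_lt.1 (Nat.lt_succ_self _)
  have hs3 : 3 * K * N + 1 ≤ s := by
    rw [hs, Nat.le_sqrt]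
    nlinarith [hX]
  have h1 : cn S X ≤ (2 * s + 2) * N := by
    unfold cn
    have h2 : ((Finset.Icc 1 X).filter (· ∈ S)) ⊆
        ((Finset.range (2 * s + 2)) ×ˢ (Finset.univ : Finset T)).image fun p => F p.1 p.2 := by
      intro n hn
      rw [Finset.mem_filter, Finset.mem_Icc] at hn
      obtain ⟨m, c, hm, hc⟩ := h n hn.2
      rw [Finset.mem_image]
      refine ⟨(m, c), ?_, hc.symm⟩
      rw [Finset.mem_product, Finset.mem_range]
      refine ⟨?_, Finset.mem_univ _⟩
      by_contra hcon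
      push Not at hcon
      have : (2 * s + 2) ^ 2 ≤ m ^ 2 := Nat.pow_le_pow_left hcon 2
      nlinarith [hn.1.2]
    refine (Finset.card_le_card h2).trans (Finset.card_image_le.trans ?_)
    rw [Finset.card_product, Finset.card_range, Finset.card_univ]
  calc K * cn S X ≤ K * ((2 * s + 2) * N) := Nat.mul_le_mul_left _ h1
    _ ≤ s * s := by
      have : 1 ≤ s := by omega
      nlinarith [Nat.zero_le (K * N)]
    _ ≤ X := hs1

private lemma toNat_div80 {n : ℕ} {a b : ℤ} (h : (n : ℤ) * a = b) (ha : a ≠ 0) : (b / a).toNat = n := by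
  rw [← h, Int.mul_ediv_cancel _ ha]
  exact Int.toNat_natCast n

theorem fewD_zero (K : ℕ) : Zero (FewD K) := by
  refine zero_of_code80 (T := Fin 3 × Cd80 K)
    (fun m c => (Pd c.1 m (dec80 K m c.2) / Pd c.1 m 0).toNat) ?_
  rintro n ⟨d, m, x, hd, -, hm, hx, hx2, h1, h2⟩
  obtain ⟨c, hc⟩ := dec_surj80 K m x hx fun i j hij => (le_abs_self _).trans (hx2 i j hij)
  refine ⟨m, (⟨d, by omega⟩, c), hm, ?_⟩
  show n = (Pd d m (dec80 K m c) / Pd d m 0).toNat
  rw [hc, toNat_div80 h1 h2]

theorem fewA_zero (K : ℕ) : Zero (FewA K) := by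
  refine zero_of_code80 (T := Cd80 K) (fun m c => (Pa m (dec80 K m c) / Pa m 0).toNat) ?_
  rintro n ⟨m, x, hm, hx, hx2, h1, h2⟩
  obtain ⟨c, hc⟩ := dec_surj80 K m x hx hx2
  refine ⟨m, c, hm, ?_⟩
  show n = (Pa m (dec80 K m c) / Pa m 0).toNat
  rw [hc, toNat_div80 h1 h2]

end PW
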